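import Pool.Agent.MP_3ce0a0_al.H79.XS
import Pool.Agent.MP_3ce0a0_al.H79.XG
import Pool.Agent.MP_3ce0a0_al.H79.XB

/-
The semisimple parts of the transvections are trivial modulo the cycles of the fixed subgraph of
the total sign change.
-/

namespace Pool.Agent.MP_3ce0a0_al.H50

open Equiv Module Finset Pool.Agent.MP_3ce0a0_al.H62.Inst Pool.Agent.MP_3ce0a0_al.H79
  Pool.Agent.MP_3ce0a0_al.H79.X

lemma keeps_Phit {O H : Type} [Group O] [AddCommGroup H] [Module ℂ H] {π : O →* End ℂ H}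
    (G : Geo π) {g y : O} (h : Commute y g) : Keeps (π y) (G.Φt g) := by
  unfold Geo.Φt
  intro v hv
  have : (⨆ ω, ⨆ (_ : G.ov ω = g), G.Φ ω) ≤
      (⨆ ω, ⨆ (_ : G.ov ω = g), G.Φ ω).comap (π y) := by
    refine iSup₂_le fun ω hω x hx => ?_
    have e : G.ov (G.act y ω) = g := by rw [G.ov_act, hω, h.eq, mul_inv_cancel_right]
    exact (le_iSup₂ (f := fun ω (_ : G.ov ω = g) => G.Φ ω) (G.act y ω) e) (G.Φ_act y ω x hx)
  exact this hv

variable {ι : Type} [DecidableEq ι]

/-- the group of sign changes. -/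
def signK {O : Type} [Group O] (ψ : A ι →* O) : Subgroup O where
  carrier := {g | ∃ J : Finset ι, g = ψ (epJ J)}
  one_mem' := ⟨∅, by rw [epJ_empty, map_one]⟩
  mul_mem' := by
    rintro _ _ ⟨I, rfl⟩ ⟨J, rfl⟩
    exact ⟨symmDiff I J, by rw [← map_mul, epJ_mul]⟩
  inv_mem' := by
    rintro _ ⟨I, rfl⟩
    refine ⟨I, inv_eq_of_mul_eq_one_right ?_⟩
    rw [← map_mul, epJ_mul, symmDiff_self, Finset.bot_eq_empty, epJ_empty, map_one]

lemma even_mem {O : Type} [Group O] (ψ : A ι →* O) (T : Subgroup O)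
    (h : ∀ c d, ψ (ep c * ep d) ∈ T) (k : ℕ) :
    ∀ J : Finset ι, J.card = 2 * k → ψ (epJ J) ∈ T := by
  induction k with
  | zero =>
    intro J hJ
    rw [Finset.card_eq_zero.1 hJ, epJ_empty, map_one]
    exact one_mem _
  | succ k ih =>
    intro J hJ
    obtain ⟨c, hc⟩ := Finset.card_pos.1 (show 0 < J.card by omega)
    have h1 := Finset.card_erase_of_mem hc
    obtain ⟨d, hd⟩ := Finset.card_pos.1 (show 0 < (J.erase c).card by omega)
    have h2 := Finset.card_erase_of_mem hd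
    rw [← Finset.insert_erase hc, epJ_insert (Finset.notMem_erase c J), ← Finset.insert_erase hd,
      epJ_insert (Finset.notMem_erase d _), ← mul_assoc, map_mul]
    exact mul_mem (h c d) (ih _ (by omega))

lemma exists_far [Fintype ι] (R : ι → ι → Prop) (hs : ∀ a b, R a b → R b a)
    (ht : ∀ a b c, R a b → R b c → R a c) (hn : 12 ≤ Fintype.card ι) {c d : ι} (h : ¬ R c d) :
    ∃ a₀, ∀ a b, ∃ f, ¬ R a₀ f ∧ f ≠ a ∧ f ≠ b := by
  classical
  have key : ∀ x, 2 * (univ.filter (R x)).card ≤ Fintype.card ι →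
      ∀ a b, ∃ f, ¬ R x f ∧ f ≠ a ∧ f ≠ b := by
    intro x hx a b
    by_contra hc
    push Not at hc
    have : (univ : Finset ι) ⊆ univ.filter (R x) ∪ {a, b} := by
      intro f _
      by_cases h1 : R x f
      · simp [h1]
      · by_cases h2 : f = a
        · simp [h2]
        · simp [hc f h1 h2]
    have h1 := (Finset.card_le_card this).trans (Finset.card_union_le _ _)
    have h2 : ({a, b} : Finset ι).card ≤ 2 := Finset.card_le_two
    rw [Finset.card_univ] at h1
    omega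
  have hd : Disjoint (univ.filter (R c)) (univ.filter (R d)) := by
    rw [Finset.disjoint_left]
    intro f h1 h2
    exact h (ht _ _ _ (Finset.mem_filter.1 h1).2 (hs _ _ (Finset.mem_filter.1 h2).2))
  have h1 := Finset.card_le_univ (univ.filter (R c) ∪ univ.filter (R d))
  rw [Finset.card_union_of_disjoint hd] at h1
  rcases le_total (univ.filter (R c)).card (univ.filter (R d)).card with h2 | h2
  · exact ⟨c, key c (by omega)⟩
  · exact ⟨d, key d (by omega)⟩

lemma rh_comm_ep {a b c : ι} (h1 : c ≠ a) (h2 : c ≠ b) : Commute (rh a b) (ep c) :=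
  commute_On (S := {a, b}) (T := {c}) (by simp [h1, h2]) (rh_mem_On (by simp) (by simp))
    (ep_mem_On (by simp))

theorem sf2 (h1 : SGeoK) (h2 : SSg) (h3 : SLam) : SF2 := by
  intro ι O H _ _ _ _ _ _ π G ψ s hin hFH hF0 hF1 a b hab v hv
  obtain ⟨hn, hev, -, hsg, -, -⟩ := hFH
  obtain ⟨-, -, -, -, -, -, hkeep, hsig, -, -⟩ := hF0
  have hfin : Finite (signK ψ) :=
    Finite.of_surjective (fun J : Finset ι => (⟨ψ (epJ J), J, rfl⟩ : signK ψ)) (by
      rintro ⟨_, J, rfl⟩
      exact ⟨J, rfl⟩)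
  obtain ⟨E, _, δ, st, hE⟩ := (h1 H O π G).2.1 (signK ψ) hfin
  have hΔ : ψ (epJ univ) ∈ signK ψ := ⟨univ, rfl⟩
  have key := h3 H ι {e // ψ (epJ univ) ∉ st e} s (Z0 (π.comp ψ)) (fun e => δ e.1) (by omega)
    hsg.1 hkeep ?_ ?_
  · rw [hE _ hΔ]
    intro e he
    rw [map_sub, key ⟨e, he⟩ a b hab v hv, sub_self]
  · rintro ⟨e, he⟩
    have hnt : ∃ c d, ψ (ep c * ep d) ∉ st e := by
      by_contra hc
      push Not at hc
      obtain ⟨k, hk⟩ := hev
      exact he (even_mem ψ (st e) hc k univ (by rw [Finset.card_univ]; omega))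
    obtain ⟨c, d, hcd⟩ := hnt
    obtain ⟨a₀, ha₀⟩ := exists_far (fun c d => ψ (ep c * ep d) ∈ st e)
      (fun x y h => by rwa [← (ep_comm x y).eq])
      (fun x y z h h' => by
        have := mul_mem h h'
        rwa [← map_mul, mul_assoc, ← mul_assoc (ep y), ep_sq, one_mul] at this) hn hcd
    refine ⟨a₀, fun a b hab ha hb v hv => ?_⟩
    obtain ⟨f, hf, hfa, hfb⟩ := ha₀ a b
    have hf0 : a₀ ≠ f := by
      rintro rfl
      exact hf (by rw [ep_sq, map_one]; exact one_mem _)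
    have hc : Commute (ψ (rh a b)) (ψ (ep a₀ * ep f)) :=
      ((rh_comm_ep ha.symm hb.symm).mul_right (rh_comm_ep hfa hfb)).map ψ
    have hm := ((h2 H (π (ψ (rh a b)))).2 (s a b) (hsg.2.1 a b hab).1).2.2.2.2.1
      (End.eigenspace (π (ψ (ep a₀ * ep f))) 1) (G.Φt (ψ (ep a₀ * ep f)))
      (keeps_eig (hc.map π) 1) (keeps_Phit G hc)
      (fun w hw => (((hF1 a₀ f hf0).1 a b
        (by simp [hab, ha, hb, hf0, hfa.symm, hfb.symm])).2 w hw).1) v
      ((iInf_le_of_le a₀ (iInf_le _ f) : Z0 (π.comp ψ) ≤ _) hv)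
    have ht : ψ (ep a₀ * ep f) ∈ signK ψ := by
      rw [map_mul]
      exact mul_mem ⟨{a₀}, by rw [epJ_single]⟩ ⟨{f}, by rw [epJ_single]⟩
    have := (hE _ ht _).1 hm e hf
    rwa [map_sub, sub_eq_zero] at this
  · intro a v hv h0 e
    have hv' : v ∈ G.Φt (ψ (epJ univ)) := (hE _ hΔ v).2 fun e he => h0 ⟨e, he⟩
    have c1 : Commute (ψ (ep a)) (ψ (epJ univ)) := by
      refine Commute.map ?_ ψ
      rw [← epJ_single, Commute, SemiconjBy, epJ_mul, epJ_mul, symmDiff_comm]
    have c2 : Commute (ψ (cage (swap none (some a)))) (ψ (epJ univ)) := by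
      rw [Commute, SemiconjBy, ← map_mul, ← map_mul, del_cage, map_mul (f := ψ) (MulAut.conj _),
        hin, one_mul]
    have e1 : sig s a v = π (ψ (ep a)) (π (ψ (cage (swap none (some a)))) v) := by
      have := hsig a v hv
      simp only [MonoidHom.comp_apply] at this
      rw [this, ← End.mul_apply, ← map_mul, ← map_mul, ep_sq, map_one, map_one, End.one_apply]
    rw [e1]
    exact (hE _ hΔ _).1 (keeps_Phit G c1 _ (keeps_Phit G c2 _ hv')) e.1 e.2

end Pool.Agent.MP_3ce0a0_al.H50
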